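import Pool.Agent.Q130.SF.Cls

/-!
# MP_2fc7fa_gt, Q1: families of symplectic forms and maps with tamed fibres

Q1 asks whether the space `S_a` of symplectic forms on `CP²` in a class `a` is contractible, that
is, whether every continuous family of such forms parametrized by a sphere extends to the ball.

Let `X` be a closed manifold, `f : X → Y` a smooth map and `s` a closed two-form on `X` (for
instance the pull-back of a symplectic form of `Y`; for a pencil on `X` one changes the pull-back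
near the base points).  Let `P` be a compact Hausdorff space of parameters, `Q ⊆ P` a closed
neighbourhood retract (for instance `(P, Q) = (D^k, S^{k-1})`), `(J_p)`, `p ∈ P`, a continuous
family of almost complex structures with `s(v, J_p v) ≥ 0`, and `= 0` only for `v` in the kernel of
`df`, and `(η_q)`, `q ∈ Q`, a continuous family of symplectic forms in the class `a`, `η_q` taming
`J_q`.  Assume that for `p` outside `Q`, on every fibre of `f` the class `a` contains a form which is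
positive on the `J_p`-complex lines on which `s` vanishes, up to a subset of the fibre with small
components; these forms depend on `p` and on the fibre in any way.  Then the family `(η_q + K s)`
extends to a family of symplectic forms in the class `a + K [s]`, parametrized by `P`, for all large
`K`.  If `[s]` is a nonnegative multiple of `a`, as on `CP²`, then `(η_q)` itself extends to a family
in `S_a`.
-/

set_option autoImplicit false

open Set MeasureTheory
open scoped Manifold ContDiff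

noncomputable section

namespace Pool.Agent.Results.MP_2fc7fa_gt.FibrewiseFamilies

open Pool.Agent.Y501.SYP

section defs

variable {V : Type} [NormedAddCommGroup V] [NormedSpace ℝ V] {X : Type} [TopologicalSpace X]
  [ChartedSpace V X] {P : Type} [TopologicalSpace P]

/-- `σ = σ₀ + dα` for a smooth one-form `α` -/
def Cohomologous (σ σ₀ : Form V X 2) : Prop :=
  ∃ (α : Form V X 1) (ρ : Form V X 2), IsSmooth α ∧ IsSmooth ρ ∧ IsD α ρ ∧ σ = addF σ₀ ρ

/-- `σ` belongs to the space `S_a` of symplectic forms in the class `a` of `σ₀` -/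
def SymplecticIn (σ₀ σ : Form V X 2) : Prop :=
  IsSmooth σ ∧ IsClosedForm σ ∧ NondegForm σ ∧ Cohomologous σ σ₀

/-- the family `Ω_p` of forms, `p ∈ S`, is continuous in the `C^∞` topology -/
def ContinuousFamily (S : Set P) (Ω : P → Form V X 2) : Prop :=
  ∀ (U : Set V) (φ : V → X), SmoothParam U φ → ∀ j : ℕ,
    ContinuousOn (fun q : P × V => iteratedFDeriv ℝ j (pb φ (Ω q.1)) q.2) (S ×ˢ U)

/-- `J_p`, `p ∈ P`, is a continuous family of almost complex structures -/
structure ContinuousACS (J : P → End V X) : Prop where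
  sq : ∀ (p : P) (x : X) (v : TangentSpace 𝓘(ℝ, V) x), J p x (J p x v) = -v
  cont : ∀ (x₀ : X) (v : V),
    ContinuousOn (fun q : P × V => inChart (J q.1) x₀ q.2 v) (univ ×ˢ (chartAt V x₀).target)

/-- `Q` is a retract of a neighbourhood -/
def NbhdRetract (Q : Set P) : Prop :=
  ∃ (N : Set P) (r : P → P), IsOpen N ∧ Q ⊆ N ∧ ContinuousOn r N ∧ (∀ p ∈ N, r p ∈ Q) ∧
    ∀ q ∈ Q, r q = q

/-- The family `η_q`, `q ∈ Q`, extends to a continuous family of symplectic forms in the class of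
`σ₀`, parametrized by `P`, which tame `J_p`. -/
def Extends (σ₀ : Form V X 2) (J : P → End V X) (Q : Set P) (η : P → Form V X 2) : Prop :=
  ∃ Ω : P → Form V X 2, (∀ q ∈ Q, Ω q = η q) ∧ ContinuousFamily univ Ω ∧
    ∀ p, SymplecticIn σ₀ (Ω p) ∧ ∀ x, TamesAt (Ω p) (J p) x

end defs

attribute [local instance] cs mf

theorem cfam_iff {d : ℕ} {X : Type} [TopologicalSpace X] [ChartedSpace (ES d) X] {P : Type}
    [TopologicalSpace P] (S : Set P) (Ω : P → Form (ES d) X 2) :
    ContinuousFamily S Ω ↔ Pool.Agent.Q130.SF.CFam (d := d) (X := X) S Ω :=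
  ⟨fun h U φ hU hφ => h U φ ⟨hU, hφ⟩, fun h U φ hφ => h U φ hφ.1 hφ.2⟩

/-- Families of symplectic forms extend after inflation along a map whose fibres are tamed up to
small sets, and in the class itself if the class of the base form is a multiple of it. -/
theorem result (d m : ℕ) (X Y : Type) [TopologicalSpace X] [ChartedSpace (ES d) X]
    [IsManifold 𝓘(ℝ, ES d) ∞ X] [CompactSpace X] [T2Space X]
    [TopologicalSpace Y] [ChartedSpace (ES m) Y] [IsManifold 𝓘(ℝ, ES m) ∞ Y] [T2Space Y]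
    [SigmaCompactSpace Y] (P : Type) [TopologicalSpace P] [CompactSpace P] [T2Space P]
    (Q : Set P) (hQ : IsClosed Q) (hr : NbhdRetract Q)
    (f : X → Y) (hf : ContMDiff 𝓘(ℝ, ES d) 𝓘(ℝ, ES m) ∞ f)
    (s σ₀ : Form (ES d) X 2) (hss : IsSmooth s) (hsc : IsClosedForm s)
    (hσ₀ : IsSmooth σ₀) (hσ₀c : IsClosedForm σ₀)
    (J : P → End (ES d) X) (hJ : ContinuousACS J)
    (hpos : ∀ (p : P) (x : X) (v : TangentSpace 𝓘(ℝ, ES d) x), 0 ≤ qd s (J p) x v)
    (hker : ∀ (p : P) (x : X) (v : TangentSpace 𝓘(ℝ, ES d) x), qd s (J p) x v = 0 →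
      mfderiv 𝓘(ℝ, ES d) 𝓘(ℝ, ES m) f x v = 0)
    (hfib : ∀ p, p ∉ Q → ∀ y : Y, GoodFibre s σ₀ (J p) (f ⁻¹' {y}))
    (η : P → Form (ES d) X 2) (hη : ContinuousFamily Q η)
    (hs : ∀ q ∈ Q, SymplecticIn σ₀ (η q) ∧ ∀ x, TamesAt (η q) (J q) x) :
    (∃ K₀ : ℝ, ∀ K : ℝ, K₀ ≤ K → Extends (comb σ₀ K s) J Q fun q => comb (η q) K s) ∧
      ((∃ c : ℝ, 0 ≤ c ∧ Cohomologous s (c • σ₀)) → Extends σ₀ J Q η) := by
  classical
  obtain ⟨N, r, hN, hQN, hrc, hrQ, hrid⟩ := hr
  have hac : ∀ p, IsAlmostComplex (J p) := by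
    intro p
    refine ⟨hJ.sq p, fun x₀ v => ?_⟩
    have h1 := hJ.cont x₀ v
    have h2 : ContinuousOn (fun u : ES d => (p, u)) (chartAt (ES d) x₀).target := by fun_prop
    exact h1.comp h2 fun u hu => ⟨mem_univ _, hu⟩
  have hJf : Pool.Agent.Q130.SF.JFam (d := d) (X := X) J := by
    intro x₀
    rw [continuousOn_clm_apply]
    exact fun v => hJ.cont x₀ v
  -- the forms for single almost complex structures
  have hex : ∀ p, ∃ (α : Form (ES d) X 1) (ρ : Form (ES d) X 2) (k : ℝ), p ∉ Q →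
      0 ≤ k ∧ IsSmooth α ∧ IsSmooth ρ ∧ IsD α ρ ∧ IsSmooth (comb (addF σ₀ ρ) k s) ∧
      IsClosedForm (comb (addF σ₀ ρ) k s) ∧ ∀ x, TamesAt (comb (addF σ₀ ρ) k s) (J p) x := by
    intro p
    by_cases hp : p ∈ Q
    · exact ⟨0, 0, 0, fun h => absurd hp h⟩
    · obtain ⟨α, ρ, g1, g2, g3, t₀, ht₀, g4⟩ := twoLevel (J p) (hac p) f hf s σ₀ hss hsc hσ₀ hσ₀c
        (hpos p) (hker p) (hfib p hp)
      have g5 := g4 t₀ ht₀ le_rfl
      have e : comb (addF σ₀ ρ) t₀⁻¹ s = t₀⁻¹ • comb s t₀ (addF σ₀ ρ) + (0 : ℝ) • s := by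
        funext x
        show (σ₀ x + ρ x) + t₀⁻¹ • s x = t₀⁻¹ • (s x + t₀ • (σ₀ x + ρ x)) + (0 : ℝ) • s x
        rw [smul_add, smul_smul, inv_mul_cancel₀ ht₀.ne', one_smul, zero_smul, add_zero, add_comm]
      refine ⟨α, ρ, t₀⁻¹, fun _ => ⟨by positivity, g1, g2, g3, ?_, ?_, fun x v hv => ?_⟩⟩
      · rw [e]
        exact Pool.Agent.Q130.SF.smooth_lin g5.smooth hss _ _
      · rw [e]
        exact Pool.Agent.Q130.SF.closed_lin g5.smooth hss g5.closed hsc _ _
      · have h1 : 0 < t₀⁻¹ * qd (comb s t₀ (addF σ₀ ρ)) (J p) x v :=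
          mul_pos (by positivity) (g5.tames x v hv)
        have h2 : qd (comb (addF σ₀ ρ) t₀⁻¹ s) (J p) x v =
            t₀⁻¹ * qd (comb s t₀ (addF σ₀ ρ)) (J p) x v := by
          rw [e]
          show t₀⁻¹ * qd (comb s t₀ (addF σ₀ ρ)) (J p) x v + 0 * qd s (J p) x v = _
          ring
        rw [h2]
        exact h1
  choose α ρ k hex using hex
  constructor
  · obtain ⟨Ω, κ, k1, k2, k3, k4, k5, k6⟩ := Pool.Agent.Q130.SF.extendS (d := d) (X := X) hQ hN hQN
      hrc hrQ hrid hJf (η := η) (w := fun p => comb (addF σ₀ (ρ p)) (k p) s) ((cfam_iff Q η).1 hη)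
      (fun q hq => (hs q hq).1.1) (fun q hq x => (hs q hq).2 x)
      (fun p hp => (hex p hp).2.2.2.2.1) (fun p hp x => (hex p hp).2.2.2.2.2.2 x)
      k
    have hC := k6 _ (Pool.Agent.Q130.SF.convex_class2 σ₀ s) (fun q hq => by
        obtain ⟨⟨h1, h2, h3, α', ρ', h4, h5, h6, h7⟩, -⟩ := hs q hq
        refine ⟨h1, h2, α', ρ', h4, h5, h6, ?_⟩
        rw [h7]
        funext x
        show σ₀ x + ρ' x = (σ₀ x + (0 : ℝ) • s x) + ρ' x
        rw [zero_smul, add_zero])
      (fun p hp => by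
        obtain ⟨-, h1, h2, h3, h4, h5, -⟩ := hex p hp
        refine ⟨h4, h5, α p, ρ p, h1, h2, h3, ?_⟩
        funext x
        show (σ₀ x + ρ p x) + k p • s x = (σ₀ x + k p • s x) + ρ p x
        abel)
    obtain ⟨K₀, hK₀⟩ := (isCompact_univ.image k3).bddAbove
    refine ⟨K₀, fun K hK => ⟨fun p => Ω p + (K - κ p) • s, fun q hq => ?_, ?_, fun p => ?_⟩⟩
    · show Ω q + (K - κ q) • s = comb (η q) K s
      rw [(k1 q hq).1, (k1 q hq).2, sub_zero]
      rfl
    · rw [cfam_iff]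
      have h1 := Pool.Agent.Q130.SF.CFam.cut (d := d) (X := X) (P := P) (G := univ)
        (A := fun _ => s) (Pool.Agent.Q130.SF.CFam.const ((smooth_iff s).1 hss)) isOpen_univ
        (f := fun p => K - κ p) (continuous_const.sub k3) (subset_univ _)
        (fun p _ => (smooth_iff s).1 hss)
      exact k2.add h1.1 (fun p _ => (smooth_iff _).1 (k4 p)) fun p _ => h1.2 p
    · obtain ⟨c1, c2, α', ρ', c3, c4, c5, c6⟩ := hC p
      have hκ : 0 ≤ K - κ p := by
        have h1 := hK₀ (mem_image_of_mem κ (mem_univ p))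
        linarith
      have e : Ω p + (K - κ p) • s = (1 : ℝ) • Ω p + (K - κ p) • s := by rw [one_smul]
      have h1 : IsSmooth (Ω p + (K - κ p) • s) := by
        rw [e]
        exact Pool.Agent.Q130.SF.smooth_lin c1 hss _ _
      have h2 : IsClosedForm (Ω p + (K - κ p) • s) := by
        rw [e]
        exact Pool.Agent.Q130.SF.closed_lin c1 hss c2 hsc _ _
      have h3 : ∀ x, TamesAt (Ω p + (K - κ p) • s) (J p) x := by
        intro x v hv
        have h4 : 0 < qd (Ω p) (J p) x v := k5 p x v hv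
        have h5 : 0 ≤ (K - κ p) * qd s (J p) x v := mul_nonneg hκ (hpos p x v)
        show 0 < qd (Ω p) (J p) x v + (K - κ p) * qd s (J p) x v
        linarith
      refine ⟨⟨h1, h2, (symp_of h1 h2 h3).nondeg, α', ρ', c3, c4, c5, ?_⟩, h3⟩
      have c6' : Ω p = addF (comb σ₀ (κ p) s) ρ' := c6
      show Ω p + (K - κ p) • s = _
      rw [c6']
      funext x
      show ((σ₀ x + κ p • s x) + ρ' x) + (K - κ p) • s x = (σ₀ x + K • s x) + ρ' x
      module
  · rintro ⟨c, hc, α₁, ρ₁, a1, a2, a3, a4⟩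
    have hck : ∀ p, p ∉ Q → 0 < 1 + k p * c := fun p hp => by
      have := mul_nonneg (hex p hp).1 hc
      linarith
    obtain ⟨w, hw⟩ : ∃ w : P → Form (ES d) X 2, ∀ p, w p =
        (1 + k p * c)⁻¹ • comb (addF σ₀ (ρ p)) (k p) s + (0 : ℝ) • s := ⟨_, fun _ => rfl⟩
    have hws : ∀ p, p ∉ Q → IsSmooth (w p) := by
      intro p hp
      rw [hw]
      exact Pool.Agent.Q130.SF.smooth_lin (hex p hp).2.2.2.2.1 hss _ _
    have hwc : ∀ p, p ∉ Q → IsClosedForm (w p) := by
      intro p hp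
      rw [hw]
      exact Pool.Agent.Q130.SF.closed_lin (hex p hp).2.2.2.2.1 hss (hex p hp).2.2.2.2.2.1 hsc _ _
    have hwt : ∀ p, p ∉ Q → ∀ x, TamesAt (w p) (J p) x := by
      intro p hp x v hv
      have h1 : 0 < qd (comb (addF σ₀ (ρ p)) (k p) s) (J p) x v :=
        (hex p hp).2.2.2.2.2.2 x v hv
      have h2 := mul_pos (inv_pos.2 (hck p hp)) h1
      rw [hw]
      show 0 < (1 + k p * c)⁻¹ * qd (comb (addF σ₀ (ρ p)) (k p) s) (J p) x v +
        0 * qd s (J p) x v
      linarith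
    obtain ⟨Ω, k1, k2, k3, k4, k5⟩ := Pool.Agent.Q130.SF.extend (d := d) (X := X) hQ hN hQN hrc hrQ
      hrid hJf (η := η) (w := w) ((cfam_iff Q η).1 hη) (fun q hq => (smooth_iff _).1 (hs q hq).1.1)
      (fun q hq x => (hs q hq).2 x) (fun p hp => (smooth_iff _).1 (hws p hp)) hwt
    have hC := k5 _ (Pool.Agent.Q130.SF.convex_class σ₀) (fun q hq => ⟨(hs q hq).1.1,
      (hs q hq).1.2.1, (hs q hq).1.2.2.2⟩) (fun p hp => by
        refine ⟨hws p hp, hwc p hp, (1 + k p * c)⁻¹ • α p + ((1 + k p * c)⁻¹ * k p) • α₁,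
          (1 + k p * c)⁻¹ • ρ p + ((1 + k p * c)⁻¹ * k p) • ρ₁,
          Pool.Agent.Q130.SF.smooth_lin (hex p hp).2.1 a1 _ _,
          Pool.Agent.Q130.SF.smooth_lin (hex p hp).2.2.1 a2 _ _,
          Pool.Agent.Q130.SF.isD_lin (hex p hp).2.1 a1 (hex p hp).2.2.2.1 a3 _ _, ?_⟩
        rw [hw, a4]
        funext x
        show (1 + k p * c)⁻¹ • ((σ₀ x + ρ p x) + k p • (c • σ₀ x + ρ₁ x)) +
          (0 : ℝ) • (c • σ₀ x + ρ₁ x) =
          σ₀ x + ((1 + k p * c)⁻¹ • ρ p x + ((1 + k p * c)⁻¹ * k p) • ρ₁ x)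
        have h1 : σ₀ x = ((1 + k p * c)⁻¹ * (1 + k p * c)) • σ₀ x := by
          rw [inv_mul_cancel₀ (hck p hp).ne', one_smul]
        conv_rhs => rw [h1]
        module)
    refine ⟨Ω, k1, (cfam_iff univ Ω).2 k2, fun p => ?_⟩
    have h1 := symp_of (hC p).1 (hC p).2.1 (fun x => k4 p x)
    exact ⟨⟨(hC p).1, (hC p).2.1, h1.nondeg, (hC p).2.2⟩, fun x => k4 p x⟩

end Pool.Agent.Results.MP_2fc7fa_gt.FibrewiseFamilies
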