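import Pool.Agent.Q130.SF.Crit
import Pool.Agent.Q130.SF.Cls
import Pool.Agent.Q130.SF.Nd3

/-!
# MP_2fc7fa_gt, Q1: spheres in the space of cohomologous symplectic forms

Let `S_a` be the space of symplectic forms in the class `a` of a closed manifold `X`.  Q1 asks
whether it is contractible for the complex projective plane.  The theorem gives a condition for a
family of symplectic forms in `S_a`, over a closed subset `Q` of a compact Hausdorff space `P`, for
instance over the sphere `S^{k-1}` in the ball `D^k`, to extend to a map from `P` to `S_a`.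

Let `σ_p`, `p ∈ P`, be a continuous family of closed forms in the class `a`, symplectic for
`p ∈ Q`, and let `θ_p` be a continuous family of two-forms, not necessarily closed.  Suppose that
near the points `(p, x)` such that `σ_p` is degenerate at `x`, the forms `σ_p + ε θ_p` are
nondegenerate at a linear rate, and that on every component `C` of the set of degenerate points of
`σ_p` the form `θ_p` is a finite sum of forms `c da ∧ db` such that `(a, b)` maps the part of `C` in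
the support of `c` onto a Lebesgue null set of the plane.  Then there are a continuous family of
one-forms `α_p` and a continuous function `χ` on `P` with values in the unit interval, zero on `Q`,
such that for all small `ε > 0` the forms `σ_p + ε χ(p) dα_p` are a continuous family in `S_a`,
which agrees with `σ_p` for `p ∈ Q`; and the segments from `σ_p + ε χ(p) θ_p` to these forms consist
of nondegenerate forms.
-/

set_option autoImplicit false

open Set MeasureTheory Topology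
open scoped Manifold ContDiff

noncomputable section

namespace Pool.Agent.Results.MP_2fc7fa_gt.LimitFamilies

open Pool.Agent.Y501.SYP

section defs

variable {V : Type} [NormedAddCommGroup V] [NormedSpace ℝ V] {X : Type} [TopologicalSpace X]
  [ChartedSpace V X] {P : Type} [TopologicalSpace P]

/-- `σ = σ₀ + dα` for a smooth one-form `α` -/
def Cohomologous (σ σ₀ : Form V X 2) : Prop :=
  ∃ (α : Form V X 1) (ρ : Form V X 2), IsSmooth α ∧ IsSmooth ρ ∧ IsD α ρ ∧ σ = addF σ₀ ρ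

/-- the family `Ω_p` of smooth forms, `p ∈ P`, is continuous in the `C^∞` topology -/
def ContinuousFamily {k : ℕ} (Ω : P → Form V X k) : Prop :=
  (∀ p, IsSmooth (Ω p)) ∧ ∀ (U : Set V) (φ : V → X), SmoothParam U φ → ∀ j : ℕ,
    ContinuousOn (fun q : P × V => iteratedFDeriv ℝ j (pb φ (Ω q.1)) q.2) (univ ×ˢ U)

/-- `Ω_p`, `p ∈ P`, is a continuous family of closed forms in the class of `σ₀` -/
def FamilyInClass (σ₀ : Form V X 2) (Ω : P → Form V X 2) : Prop :=
  ContinuousFamily Ω ∧ ∀ p, IsClosedForm (Ω p) ∧ Cohomologous (Ω p) σ₀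

/-- the points at which `σ` is degenerate -/
def Degenerate (σ : Form V X 2) : Set X :=
  {x | ∃ v : TangentSpace 𝓘(ℝ, V) x, v ≠ 0 ∧ ∀ w, σ x ![v, w] = 0}

end defs

/-- near `(p, x)` the forms `σ_q + ε θ_q`, `0 < ε ≤ c`, are nondegenerate at a linear rate: in the
chart at `x`, every vector `v` has a vector `w` of length at most one such that
`(σ_q + ε θ_q)(v, w) ≥ c ε |v|` -/
def LinearRate {d : ℕ} {X : Type} [TopologicalSpace X] [ChartedSpace (ES d) X]
    {P : Type} [TopologicalSpace P] (σ θ : P → Form (ES d) X 2) (p : P) (x : X) : Prop :=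
  ∃ c : ℝ, 0 < c ∧ ∀ᶠ q : P × ES d in 𝓝 (p, chartAt (ES d) x x), ∀ ε : ℝ, 0 < ε → ε ≤ c →
    ∀ v : ES d, ∃ w : ES d, ‖w‖ ≤ 1 ∧
      c * ε * ‖v‖ ≤ pb (chartAt (ES d) x).symm (σ q.1) q.2 ![v, w] +
        ε * pb (chartAt (ES d) x).symm (θ q.1) q.2 ![v, w]

/-- on `C` the form `θ` is a finite sum of forms `c da ∧ db` with smooth functions such that
`(a, b)` maps the part of `C` in the support of `c` onto a Lebesgue null set of the plane -/
def NullSum {d : ℕ} {X : Type} [TopologicalSpace X] [ChartedSpace (ES d) X]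
    (θ : Form (ES d) X 2) (C : Set X) : Prop :=
  ∃ (n : ℕ) (c a b : Fin n → X → ℝ), (∀ i, SmoothFun (V := ES d) (c i)) ∧
    (∀ i, SmoothFun (V := ES d) (a i)) ∧ (∀ i, SmoothFun (V := ES d) (b i)) ∧
    (∀ i, volume ((fun x => (a i x, b i x)) '' (C ∩ tsupport (c i))) = 0) ∧
    ∀ x ∈ C, ∀ v w : TangentSpace 𝓘(ℝ, ES d) x, θ x ![v, w] =
      ∑ i, c i x * (dd (a i) x v * dd (b i) x w - dd (a i) x w * dd (b i) x v)

attribute [local instance] cs mf

theorem cfam_iff {d : ℕ} {X : Type} [TopologicalSpace X] [ChartedSpace (ES d) X] {P : Type}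
    [TopologicalSpace P] {k : ℕ} (Ω : P → Form (ES d) X k) :
    ContinuousFamily Ω ↔ (∀ p, IsSmooth (Ω p)) ∧
      Pool.Agent.Q130.SF.CFam (d := d) (X := X) univ Ω :=
  ⟨fun h => ⟨h.1, fun U φ hU hφ => h.2 U φ ⟨hU, hφ⟩⟩,
    fun h => ⟨h.1, fun U φ hφ => h.2 U φ hφ.1 hφ.2⟩⟩

/-- A continuous family of closed forms in the class of `σ₀`, symplectic over `Q`, which is a limit
at a linear rate of nondegenerate forms, is a limit of continuous families of symplectic forms in
the class of `σ₀`, without change over `Q`. -/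
theorem result (d : ℕ) (X : Type) [TopologicalSpace X] [ChartedSpace (ES d) X]
    [IsManifold 𝓘(ℝ, ES d) ∞ X] [CompactSpace X] [T2Space X]
    (P : Type) [TopologicalSpace P] [CompactSpace P] [T2Space P] (Q : Set P) (hQ : IsClosed Q)
    (σ₀ : Form (ES d) X 2) (σ θ : P → Form (ES d) X 2) (hσ : FamilyInClass σ₀ σ)
    (hθ : ContinuousFamily θ) (hσQ : ∀ q ∈ Q, NondegForm (σ q))
    (hR : ∀ p, ∀ x ∈ Degenerate (σ p), LinearRate σ θ p x)
    (hN : ∀ p, ∀ z ∈ Degenerate (σ p),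
      NullSum (θ p) (connectedComponentIn (Degenerate (σ p)) z)) :
    ∃ (α : P → Form (ES d) X 1) (η : P → Form (ES d) X 2) (χ : P → ℝ) (ε₀ : ℝ),
      ContinuousFamily α ∧ ContinuousFamily η ∧ (∀ p, IsD (α p) (η p)) ∧ Continuous χ ∧
      (∀ p, 0 ≤ χ p ∧ χ p ≤ 1) ∧ (∀ q ∈ Q, χ q = 0) ∧ 0 < ε₀ ∧
      ∀ ε : ℝ, 0 < ε → ε ≤ ε₀ →
        FamilyInClass σ₀ (fun p => comb (σ p) (ε * χ p) (η p)) ∧
        (∀ p, NondegForm (comb (σ p) (ε * χ p) (η p))) ∧
        ∀ (p : P) (s : ℝ), 0 ≤ s → s ≤ 1 →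
          NondegForm (segment (comb (σ p) (ε * χ p) (θ p)) (comb (σ p) (ε * χ p) (η p)) s) := by
  classical
  obtain ⟨hσc, hσcl⟩ := hσ
  obtain ⟨hσs, hσf⟩ := (cfam_iff σ).1 hσc
  obtain ⟨hθs, hθf⟩ := (cfam_iff θ).1 hθ
  have hDeg : ∀ τ : Form (ES d) X 2,
      Degenerate τ = {x | ¬ Pool.Agent.Q130.SF.nd (d := d) (X := X) τ x} := by
    intro τ
    ext x
    constructor
    · rintro ⟨v, hv, h⟩ h1
      exact hv (h1 v h)
    · intro h
      by_contra h1
      apply h
      intro v hv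
      by_contra h2
      exact h1 ⟨v, h2, hv⟩
  have hmem : ∀ (τ : Form (ES d) X 2) (x : X),
      ¬ Pool.Agent.Q130.SF.nd (d := d) (X := X) τ x → x ∈ Degenerate τ := by
    intro τ x hx
    rw [hDeg]
    exact hx
  have key : ∃ (α : P → Form (ES d) X 1) (η : P → Form (ES d) X 2),
      Pool.Agent.Q130.SF.CFam (d := d) (X := X) univ α ∧
      Pool.Agent.Q130.SF.CFam (d := d) (X := X) univ η ∧
      (∀ p, IsSmooth (α p) ∧ IsSmooth (η p) ∧ IsD (α p) (η p) ∧ IsClosedForm (η p)) ∧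
      ∃ ε₀ : ℝ, 0 < ε₀ ∧ ∀ ε : ℝ, 0 < ε → ε ≤ ε₀ → ∀ s : ℝ, 0 ≤ s → s ≤ 1 →
        ∀ p x, Pool.Agent.Q130.SF.nd (d := d) (X := X)
          (Pool.Agent.Q130.SF.mix (d := d) (X := X) (σ p) (θ p) (η p) ε s) x := by
    obtain ⟨α, η, b1, b2, b3, b4⟩ := Pool.Agent.Q130.SF.ndFam (d := d) (X := X)
      Pool.Agent.Y484.SY.t_GEN Pool.Agent.Y925.SY.t_PLANAR (σ := σ) (θ := θ) hσf hθf
      (fun p x hx => hR p x (hmem _ x hx))
      (fun p z hz => by
        have h1 := hN p z (hmem _ z hz)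
        rw [hDeg] at h1
        exact h1)
    exact ⟨α, η, b1, b2, fun p => ⟨(smooth_iff _).2 (b3 p).1, (smooth_iff _).2 (b3 p).2.1,
      (isD_iff _ _).2 (b3 p).2.2.1, (closed_iff _).2 (b3 p).2.2.2⟩, b4⟩
  obtain ⟨α, η, b1, b2, b3, ε₀, hε₀, b4⟩ := key
  -- the degenerate parameters
  have hFc : IsClosed {z : P × X | ¬ Pool.Agent.Q130.SF.nd (d := d) (X := X) (σ z.1) z.2} := by
    rw [← isOpen_compl_iff, isOpen_iff_eventually]
    rintro ⟨p, x⟩ hx
    have hx' : Pool.Agent.Q130.SF.nd (d := d) (X := X) (σ p) x := by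
      by_contra h
      exact hx h
    obtain ⟨c, hc, h1⟩ := Pool.Agent.Q130.SF.fgood_nd (d := d) (X := X) hσf hθf hθf hx'
    filter_upwards [h1] with y hy h
    refine h (Pool.Agent.Q130.SF.nd_congr (d := d) (X := X) ?_
      (hy 0 le_rfl hc.le 0 le_rfl zero_le_one))
    show σ y.1 y.2 + (0 : ℝ) • ((1 - (0 : ℝ)) • θ y.1 y.2 + (0 : ℝ) • θ y.1 y.2) = σ y.1 y.2
    rw [zero_smul, add_zero]
  have hDc : IsClosed (Prod.fst ''
      {z : P × X | ¬ Pool.Agent.Q130.SF.nd (d := d) (X := X) (σ z.1) z.2}) :=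
    (hFc.isCompact.image continuous_fst).isClosed
  have hdis : Disjoint Q (Prod.fst ''
      {z : P × X | ¬ Pool.Agent.Q130.SF.nd (d := d) (X := X) (σ z.1) z.2}) := by
    rw [Set.disjoint_left]
    rintro _ hq ⟨⟨q, x⟩, hz, rfl⟩
    exact hz fun v hv => hσQ q hq x v hv
  obtain ⟨χ, hχQ, hχD, hχI⟩ := exists_continuous_zero_one_of_isClosed hQ hDc hdis
  have hχ0 : ∀ p, χ p = 0 → ∀ x, Pool.Agent.Q130.SF.nd (d := d) (X := X) (σ p) x := by
    intro p hp x
    by_contra h
    have h1 := hχD ⟨(p, x), h, rfl⟩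
    rw [hp] at h1
    exact zero_ne_one h1
  have hseg : ∀ (p : P) (ε s : ℝ),
      (segment (comb (σ p) ε (θ p)) (comb (σ p) ε (η p)) s : Form (ES d) X 2) =
      Pool.Agent.Q130.SF.mix (d := d) (X := X) (σ p) (θ p) (η p) ε s := by
    intro p ε s
    funext x
    show (1 - s) • (σ p x + ε • θ p x) + s • (σ p x + ε • η p x) =
      σ p x + ε • ((1 - s) • θ p x + s • η p x)
    rw [smul_add, smul_add, smul_add, smul_smul, smul_smul, smul_smul, smul_smul,
      mul_comm ε (1 - s), mul_comm ε s]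
    have h2 : (1 - s) • σ p x + s • σ p x = σ p x := by
      rw [← add_smul, sub_add_cancel, one_smul]
    calc (1 - s) • σ p x + ((1 - s) * ε) • θ p x + (s • σ p x + (s * ε) • η p x) =
        ((1 - s) • σ p x + s • σ p x) + (((1 - s) * ε) • θ p x + (s * ε) • η p x) := by abel
      _ = _ := by rw [h2]
  have hnd : ∀ ε : ℝ, 0 < ε → ε ≤ ε₀ → ∀ (p : P) (s : ℝ), 0 ≤ s → s ≤ 1 →
      NondegForm (segment (comb (σ p) (ε * χ p) (θ p)) (comb (σ p) (ε * χ p) (η p)) s) := by
    intro ε h1 h2 p s h3 h4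
    rw [hseg]
    rcases eq_or_lt_of_le (hχI p).1 with h0 | h0
    · intro x v hv
      refine Pool.Agent.Q130.SF.nd_congr (d := d) (X := X) (T := σ p) ?_ (hχ0 p h0.symm x) v hv
      show σ p x = σ p x + (ε * χ p) • ((1 - s) • θ p x + s • η p x)
      rw [← h0, mul_zero, zero_smul, add_zero]
    · have h5 : ε * χ p ≤ ε₀ := by
        have := mul_le_mul_of_nonneg_left (hχI p).2 h1.le
        linarith
      exact fun x v hv => b4 (ε * χ p) (mul_pos h1 h0) h5 s h3 h4 p x v hv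
  refine ⟨α, η, χ, ε₀, (cfam_iff α).2 ⟨fun p => (b3 p).1, b1⟩,
    (cfam_iff η).2 ⟨fun p => (b3 p).2.1, b2⟩, fun p => (b3 p).2.2.1, χ.continuous,
    fun p => hχI p, fun q hq => hχQ hq, hε₀, fun ε h1 h2 => ⟨⟨?_, fun p => ?_⟩, fun p => ?_,
    hnd ε h1 h2⟩⟩
  · have hcut := Pool.Agent.Q130.SF.CFam.cut (d := d) (X := X) (G := univ) b2 isOpen_univ
      (f := fun p => ε * χ p) (continuous_const.mul χ.continuous) (subset_univ _)
      (fun p _ => (smooth_iff _).1 (b3 p).2.1)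
    have hadd := Pool.Agent.Q130.SF.CFam.add (d := d) (X := X) hσf hcut.1
      (fun p _ => (smooth_iff _).1 (hσs p)) (fun p _ => hcut.2 p)
    refine (cfam_iff _).2 ⟨fun p => ?_, hadd⟩
    have h3 := Pool.Agent.Q130.SF.smooth_lin (hσs p) (b3 p).2.1 1 (ε * χ p)
    rw [one_smul] at h3
    exact h3
  · obtain ⟨hc, β, ρ, a1, a2, a3, a4⟩ := hσcl p
    have h3 := Pool.Agent.Q130.SF.closed_lin (hσs p) (b3 p).2.1 hc (b3 p).2.2.2 1 (ε * χ p)
    rw [one_smul] at h3
    refine ⟨h3, (1 : ℝ) • β + (ε * χ p) • α p, (1 : ℝ) • ρ + (ε * χ p) • η p,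
      Pool.Agent.Q130.SF.smooth_lin a1 (b3 p).1 1 _,
      Pool.Agent.Q130.SF.smooth_lin a2 (b3 p).2.1 1 _,
      Pool.Agent.Q130.SF.isD_lin a1 (b3 p).1 a3 (b3 p).2.2.1 1 _, ?_⟩
    funext x
    have h5 : σ p x = σ₀ x + ρ x := by
      rw [a4]
      rfl
    show σ p x + (ε * χ p) • η p x = σ₀ x + ((1 : ℝ) • ρ x + (ε * χ p) • η p x)
    rw [h5, one_smul, add_assoc]
  · have h3 := hnd ε h1 h2 p 1 zero_le_one le_rfl
    have h4 : (segment (comb (σ p) (ε * χ p) (θ p)) (comb (σ p) (ε * χ p) (η p)) 1 :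
        Form (ES d) X 2) = comb (σ p) (ε * χ p) (η p) := by
      funext x
      show (1 - (1 : ℝ)) • (comb (σ p) (ε * χ p) (θ p) x) +
        (1 : ℝ) • (comb (σ p) (ε * χ p) (η p) x) = comb (σ p) (ε * χ p) (η p) x
      rw [sub_self, zero_smul, zero_add, one_smul]
    rw [h4] at h3
    exact h3

end Pool.Agent.Results.MP_2fc7fa_gt.LimitFamilies
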