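import Pool.Agent.Q130.SF.Ext

/-!
# MP_2fc7fa_gt, Q1: spheres in the space of cohomologous symplectic forms

Q1 asks whether the space `S_a` of symplectic forms on `CP²` in a class `a` is contractible.
Equivalently, every continuous family of such forms parametrized by a sphere `S^{k-1}` extends to
the ball `D^k`.  The theorem reduces the extension problem, on all closed manifolds `X`, to almost
complex structures which need to be tamed only weakly.

Let `P` be a compact Hausdorff space of parameters and `Q ⊆ P` a closed neighbourhood retract (for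
instance `(P, Q) = (D^k, S^{k-1})`), `(J_p)` a continuous family of almost complex structures on `X`,
`p ∈ P`, and `(η_q)`, `q ∈ Q`, a continuous family of symplectic forms in the class `a` such that
`η_q` tames `J_q`.  Assume that for every `p` outside `Q` the class `a` contains a form which is
nonnegative on the `J_p`-complex lines, possibly with singularities, and degenerate only over a set
with small components; this form need not depend on `p` continuously.  Then `(η_q)` extends to a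
continuous family of symplectic forms in the class `a`, parametrized by `P`, which tame `J_p`.
-/

set_option autoImplicit false

open Set MeasureTheory
open scoped Manifold ContDiff

noncomputable section

namespace Pool.Agent.Results.MP_2fc7fa_gt.WeaklyTamedFamilies

open Pool.Agent.Y501.SYP

section defs

variable {V : Type} [NormedAddCommGroup V] [NormedSpace ℝ V] {X : Type} [TopologicalSpace X]
  [ChartedSpace V X] {P : Type} [TopologicalSpace P]

/-- `σ = σ₀ + dα` for a smooth one-form `α` -/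
def Cohomologous (σ σ₀ : Form V X 2) : Prop :=
  ∃ (α : Form V X 1) (ρ : Form V X 2), IsSmooth α ∧ IsSmooth ρ ∧ IsD α ρ ∧ σ = addF σ₀ ρ

/-- `σ` belongs to the space `S_a` of symplectic forms in the class `a` of `σ₀` -/
def SymplecticIn (σ₀ σ : Form V X 2) : Prop :=
  IsSmooth σ ∧ IsClosedForm σ ∧ NondegForm σ ∧ Cohomologous σ σ₀

/-- the family `Ω_p` of forms, `p ∈ S`, is continuous in the `C^∞` topology -/
def ContinuousFamily (S : Set P) (Ω : P → Form V X 2) : Prop :=
  ∀ (U : Set V) (φ : V → X), SmoothParam U φ → ∀ j : ℕ,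
    ContinuousOn (fun q : P × V => iteratedFDeriv ℝ j (pb φ (Ω q.1)) q.2) (S ×ˢ U)

/-- `J_p`, `p ∈ P`, is a continuous family of almost complex structures -/
structure ContinuousACS (J : P → End V X) : Prop where
  sq : ∀ (p : P) (x : X) (v : TangentSpace 𝓘(ℝ, V) x), J p x (J p x v) = -v
  cont : ∀ (x₀ : X) (v : V),
    ContinuousOn (fun q : P × V => inChart (J q.1) x₀ q.2 v) (univ ×ˢ (chartAt V x₀).target)

/-- `Q` is a retract of a neighbourhood -/
def NbhdRetract (Q : Set P) : Prop :=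
  ∃ (N : Set P) (r : P → P), IsOpen N ∧ Q ⊆ N ∧ ContinuousOn r N ∧ (∀ p ∈ N, r p ∈ Q) ∧
    ∀ q ∈ Q, r q = q

end defs

/-- The class of `σ₀` contains a form `σ = σ₀ + dβ` with `σ(v, J v) ≥ 0`, where `σ` and `β` are
smooth off a closed set `K` of codimension more than one and bounded, and the components of the set
of points near which `σ` does not tame `J` uniformly are small. -/
def WeaklyTamed (d : ℕ) {X : Type} [TopologicalSpace X] [ChartedSpace (ES d) X]
    (σ₀ : Form (ES d) X 2) (J : End (ES d) X) : Prop :=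
  ∃ (K : Set X) (β : Form (ES d) X 1) (σ : Form (ES d) X 2), IsClosed K ∧
    (∀ x₀ : X, μH[(d : ℝ) - 1] (chartAt (ES d) x₀ '' (K ∩ (chartAt (ES d) x₀).source)) = 0) ∧
    SmoothOff β K ∧ SmoothOff σ K ∧ EqPlusD σ σ₀ β K ∧
    (∀ x ∈ K, BddNearK β K x ∧ BddNearK σ K x) ∧
    (∀ x, x ∉ K → ∀ v : TangentSpace 𝓘(ℝ, ES d) x, 0 ≤ qd σ J x v) ∧
    ∀ z ∈ Crit σ J K, SmallAll J (connectedComponentIn (Crit σ J K) z) z

attribute [local instance] cs mf

theorem cfam_iff {d : ℕ} {X : Type} [TopologicalSpace X] [ChartedSpace (ES d) X] {P : Type}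
    [TopologicalSpace P] (S : Set P) (Ω : P → Form (ES d) X 2) :
    ContinuousFamily S Ω ↔ Pool.Agent.Q130.SF.CFam (d := d) (X := X) S Ω :=
  ⟨fun h U φ hU hφ => h U φ ⟨hU, hφ⟩, fun h U φ hφ => h U φ hφ.1 hφ.2⟩

/-- the forms in the class of `σ₀` are a convex set -/
theorem convex_class {d : ℕ} {X : Type} [TopologicalSpace X] [ChartedSpace (ES d) X]
    (σ₀ : Form (ES d) X 2) :
    Convex ℝ {σ : Form (ES d) X 2 | IsSmooth σ ∧ IsClosedForm σ ∧ Cohomologous σ σ₀} := by
  rintro σ ⟨s1, c1, α, ρ, a1, a2, a3, rfl⟩ τ ⟨s2, c2, α', ρ', b1, b2, b3, rfl⟩ a b ha hb hab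
  have hlin1 : ∀ (φ : ES d → X) (σ τ : Form (ES d) X 1),
      pb φ (a • σ + b • τ) = a • pb φ σ + b • pb φ τ := by
    intro φ σ τ
    funext p
    ext v
    rfl
  have hlin2 : ∀ (φ : ES d → X) (σ τ : Form (ES d) X 2),
      pb φ (a • σ + b • τ) = a • pb φ σ + b • pb φ τ := by
    intro φ σ τ
    funext p
    ext v
    rfl
  have hd : ∀ {U : Set (ES d)} {φ : ES d → X}, SmoothParam U φ → ∀ {k : ℕ}
      (A B : ES d → (ES d) [⋀^Fin k]→L[ℝ] ℝ), ContDiffOn ℝ ∞ A U → ContDiffOn ℝ ∞ B U →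
      ∀ p ∈ U, extDeriv (a • A + b • B) p = a • extDeriv A p + b • extDeriv B p := by
    intro U φ hφ k A B hA hB p hp
    have h1 : DifferentiableAt ℝ A p :=
      ((hA.contDiffAt (hφ.1.mem_nhds hp)).differentiableAt (by simp))
    have h2 : DifferentiableAt ℝ B p :=
      ((hB.contDiffAt (hφ.1.mem_nhds hp)).differentiableAt (by simp))
    rw [extDeriv_add (h1.const_smul a) (h2.const_smul b), extDeriv_smul, extDeriv_smul]
  refine ⟨fun U φ hφ => ?_, fun U φ hφ p hp => ?_, a • α + b • α', a • ρ + b • ρ',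
    fun U φ hφ => ?_, fun U φ hφ => ?_, fun U φ hφ p hp => ?_, ?_⟩
  · rw [hlin2]
    exact (contDiffOn_const.smul (s1 U φ hφ)).add (contDiffOn_const.smul (s2 U φ hφ))
  · rw [hlin2, hd hφ _ _ (s1 U φ hφ) (s2 U φ hφ) p hp, c1 U φ hφ p hp, c2 U φ hφ p hp]
    simp
  · rw [hlin1]
    exact (contDiffOn_const.smul (a1 U φ hφ)).add (contDiffOn_const.smul (b1 U φ hφ))
  · rw [hlin2]
    exact (contDiffOn_const.smul (a2 U φ hφ)).add (contDiffOn_const.smul (b2 U φ hφ))
  · rw [hlin1, hlin2, hd hφ _ _ (a1 U φ hφ) (b1 U φ hφ) p hp, a3 U φ hφ p hp, b3 U φ hφ p hp]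
    rfl
  · funext x
    show a • (σ₀ x + ρ x) + b • (σ₀ x + ρ' x) = σ₀ x + (a • ρ x + b • ρ' x)
    have h1 : a • σ₀ x + b • σ₀ x = σ₀ x := by rw [← add_smul, hab, one_smul]
    calc a • (σ₀ x + ρ x) + b • (σ₀ x + ρ' x) = (a • σ₀ x + b • σ₀ x) + (a • ρ x + b • ρ' x) := by
          rw [smul_add, smul_add]
          abel
      _ = _ := by rw [h1]

/-- Families of symplectic forms in a class extend when the almost complex structures which they
tame extend to a family of almost complex structures tamed weakly in this class. -/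
theorem result (d : ℕ) (hd : 1 ≤ d) (X : Type) [TopologicalSpace X] [ChartedSpace (ES d) X]
    [IsManifold 𝓘(ℝ, ES d) ∞ X] [CompactSpace X] [T2Space X]
    (P : Type) [TopologicalSpace P] [CompactSpace P] [T2Space P]
    (Q : Set P) (hQ : IsClosed Q) (hr : NbhdRetract Q)
    (σ₀ : Form (ES d) X 2) (hσ₀ : IsSmooth σ₀) (hσ₀c : IsClosedForm σ₀)
    (J : P → End (ES d) X) (hJ : ContinuousACS J)
    (η : P → Form (ES d) X 2) (hη : ContinuousFamily Q η)
    (hs : ∀ q ∈ Q, SymplecticIn σ₀ (η q) ∧ ∀ x, TamesAt (η q) (J q) x)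
    (hw : ∀ p, p ∉ Q → WeaklyTamed d σ₀ (J p)) :
    ∃ Ω : P → Form (ES d) X 2, (∀ q ∈ Q, Ω q = η q) ∧ ContinuousFamily univ Ω ∧
      ∀ p, SymplecticIn σ₀ (Ω p) ∧ ∀ x, TamesAt (Ω p) (J p) x := by
  classical
  obtain ⟨N, r, hN, hQN, hrc, hrQ, hrid⟩ := hr
  have hac : ∀ p, IsAlmostComplex (J p) := by
    intro p
    refine ⟨hJ.sq p, fun x₀ v => ?_⟩
    have h1 := hJ.cont x₀ v
    have h2 : ContinuousOn (fun u : ES d => (p, u)) (chartAt (ES d) x₀).target := by fun_prop
    exact h1.comp h2 fun u hu => ⟨mem_univ _, hu⟩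
  have hJf : Pool.Agent.Q130.SF.JFam (d := d) (X := X) J := by
    intro x₀
    rw [continuousOn_clm_apply]
    exact fun v => hJ.cont x₀ v
  have hex : ∀ p, ∃ w : Form (ES d) X 2, p ∉ Q → SymplecticIn σ₀ w ∧ ∀ x, TamesAt w (J p) x := by
    intro p
    by_cases hp : p ∈ Q
    · exact ⟨σ₀, fun h => absurd hp h⟩
    · obtain ⟨K, β, σ, h1, h2, h3, h4, h5, h6, h7, h8⟩ := hw p hp
      obtain ⟨α, ρ, g1, g2, g3, g4, -⟩ := removableInClass hd (J p) (hac p) K h1 h2 σ₀ hσ₀ hσ₀c β σ
        h3 h4 h5 h6 h7 h8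
      exact ⟨addF σ₀ ρ, fun _ => ⟨⟨g4.smooth, g4.closed, g4.nondeg, α, ρ, g1, g2, g3, rfl⟩,
        g4.tames⟩⟩
  choose w hw' using hex
  obtain ⟨Ω, k1, k2, k3, k4, k5⟩ := Pool.Agent.Q130.SF.extend (d := d) (X := X) hQ hN hQN hrc hrQ
    hrid hJf (η := η) (w := w) ((cfam_iff Q η).1 hη) (fun q hq => (smooth_iff _).1 (hs q hq).1.1)
    (fun q hq x => (hs q hq).2 x) (fun p hp => (smooth_iff _).1 (hw' p hp).1.1)
    (fun p hp x => (hw' p hp).2 x)
  have hC := k5 _ (convex_class σ₀) (fun q hq => ⟨(hs q hq).1.1, (hs q hq).1.2.1,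
    (hs q hq).1.2.2.2⟩) (fun p hp => ⟨(hw' p hp).1.1, (hw' p hp).1.2.1, (hw' p hp).1.2.2.2⟩)
  refine ⟨Ω, k1, (cfam_iff univ Ω).2 k2, fun p => ?_⟩
  have h1 := symp_of (hC p).1 (hC p).2.1 (fun x => k4 p x)
  exact ⟨⟨(hC p).1, (hC p).2.1, h1.nondeg, (hC p).2.2⟩, fun x => k4 p x⟩

end Pool.Agent.Results.MP_2fc7fa_gt.WeaklyTamedFamilies
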